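import Mathlib
import Pool.Agent.MP_b0da28_lc.Main

namespace Pool.Agent.Results.MP_b0da28_lc.ClosedNotReducible

/-- The Baire space, with the product topology of the discrete topologies. -/
abbrev Baire : Type := ℕ → ℕ

/-- The Friedman-Stanley jump of equality: two sequences of points of the Baire space are
related when they enumerate the same set. -/
def EqPlus (x y : ℕ → Baire) : Prop := Set.range x = Set.range y

/-- An equivalence relation on the Baire space is smooth when it is the kernel of a Borel map
into some Polish space. -/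
def IsSmooth (E : Setoid Baire) : Prop :=
  ∃ (Z : Type) (_ : TopologicalSpace Z) (_ : PolishSpace Z) (h : Baire → Z),
    @Measurable Baire Z (borel Baire) (borel Z) h ∧ ∀ x y : Baire, E x y ↔ h x = h y

/-- Continuous reducibility of `E` to the relation `EqPlus` on `(ℕ → Baire)`, which carries
the product topology. -/
def ReducesToEqPlus (E : Setoid Baire) : Prop :=
  ∃ f : Baire → (ℕ → Baire), Continuous f ∧ ∀ x y : Baire, E x y ↔ EqPlus (f x) (f y)

/-- There is a closed smooth equivalence relation on the Baire space with no continuous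
reduction to the Friedman-Stanley jump of equality. -/
theorem result : ∃ E : Setoid Baire,
    IsClosed {p : Baire × Baire | E p.1 p.2} ∧ IsSmooth E ∧ ¬ ReducesToEqPlus E := by
  have : Nonempty Pool.Agent.MP_b0da28_lc.X := ⟨(0, 0, fun _ _ => 0)⟩
  obtain ⟨g, hgc, hgo, hgs⟩ :=
    Pool.Agent.MP_b0da28_lc.exists_open_surj Pool.Agent.MP_b0da28_lc.X
  refine ⟨Pool.Agent.MP_b0da28_lc.EX.comap g, ?_, ?_, ?_⟩
  · exact Pool.Agent.MP_b0da28_lc.EX_closed.preimage
      (f := fun p : Baire × Baire => (g p.1, g p.2)) (by fun_prop)
  · refine ⟨Pool.Agent.MP_b0da28_lc.X, inferInstance, inferInstance,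
      fun x => Pool.Agent.MP_b0da28_lc.inv (g x), ?_, fun x y => Iff.rfl⟩
    have h1 : @Measurable Pool.Agent.MP_b0da28_lc.X Pool.Agent.MP_b0da28_lc.X
        (borel _) (borel _) Pool.Agent.MP_b0da28_lc.inv := by
      have h2 := Pool.Agent.MP_b0da28_lc.inv_measurable
      rw [BorelSpace.measurable_eq (α := Pool.Agent.MP_b0da28_lc.X)] at h2
      exact h2
    exact h1.comp hgc.borel_measurable
  · exact Pool.Agent.MP_b0da28_lc.no_reduction g hgc hgo hgs

end Pool.Agent.Results.MP_b0da28_lc.ClosedNotReducible
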